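import Mathlib

namespace Pool.Agent.Results.MP_9cf868_co.Full

/-- `N^{RB}(X)`: vertices joined to `X` by a red edge and also by a blue edge
(`col e = true` means red, `col e = false` means blue). -/
def NRB {V : Type} (G : SimpleGraph V) (col : Sym2 V → Bool) (X : Finset V) : Set V :=
  {v | (∃ x ∈ X, G.Adj v x ∧ col s(v, x) = true) ∧ (∃ x ∈ X, G.Adj v x ∧ col s(v, x) = false)}

/-- The statement of Q1. -/
def Claim : Prop :=
  ∀ (V : Type) [Fintype V] [DecidableEq V] (G : SimpleGraph V) (A B : Finset V)
    (col : Sym2 V → Bool),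
    Disjoint A B → A ∪ B = Finset.univ →
    (∀ u v, G.Adj u v → (u ∈ A ∧ v ∈ B) ∨ (u ∈ B ∧ v ∈ A)) →
    (∀ X, X ⊆ A → (X.card : ℤ) - 1 ≤ ((NRB G col X).ncard : ℤ)) →
    ∃ (u v : V) (p : G.Walk u v), p.IsPath ∧
      List.IsChain (fun e f => col e ≠ col f) p.edges ∧ ∀ a ∈ A, a ∈ p.support

/-- table entry for `a < 4 ≤ b`: 0 no edge, 1 red, 2 blue -/
def tb (a b : ℕ) : ℕ :=
  (([[0, 1, 1], [0, 2, 2], [1, 1, 2], [2, 2, 1]] : List (List ℕ)).getD a []).getD (b - 4) 0

def ent (u v : Fin 7) : ℕ :=
  if u.val < 4 ∧ 4 ≤ v.val then tb u.val v.val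
  else if v.val < 4 ∧ 4 ≤ u.val then tb v.val u.val else 0

theorem ent_symm : ∀ u v, ent u v = ent v u := by decide

def G0 : SimpleGraph (Fin 7) where
  Adj u v := ent u v ≠ 0
  symm := ⟨fun u v h => by rw [ent_symm]; exact h⟩
  loopless := ⟨by decide⟩

instance : DecidableRel G0.Adj := fun u v => inferInstanceAs (Decidable (ent u v ≠ 0))

def c0 : Sym2 (Fin 7) → Bool :=
  Sym2.lift ⟨fun u v => ent u v == 1, fun u v => by simp only [ent_symm u v]⟩

def srch : ℕ → Fin 7 → Option Bool → List (Fin 7) → Bool
  | 0, _, _, _ => true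
  | n + 1, u, c, vis =>
    (([0, 1, 2, 3] : List (Fin 7)).all fun a => (u :: vis).contains a) ||
      (List.finRange 7).any fun v =>
        (ent u v != 0) && !((u :: vis).contains v) && (c != some (ent u v == 1)) &&
          srch n v (some (ent u v == 1)) (u :: vis)

theorem srch_false : ∀ u, srch 8 u none [] = false := by decide +kernel

theorem srch_complete {u w : Fin 7} (p : G0.Walk u w) :
    ∀ (n : ℕ) (c : Option Bool) (vis : List (Fin 7)), p.IsPath →
      (∀ x ∈ vis, x ∉ p.support) →
      List.IsChain (fun e f => c0 e ≠ c0 f) p.edges →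
      (∀ e ∈ p.edges.head?, c ≠ some (c0 e)) →
      (∀ a ∈ ([0, 1, 2, 3] : List (Fin 7)), a ∈ p.support ∨ a ∈ vis) →
      srch n u c vis = true := by
  induction p with
  | nil =>
    intro n c vis _ _ _ _ hcov
    cases n with
    | zero => rfl
    | succ n =>
      simp only [srch, Bool.or_eq_true, List.all_eq_true]
      left
      intro a ha
      rcases hcov a ha with h | h
      · simp at h
        simp [h]
      · simp [h]
  | @cons u v w h q ih =>
    intro n c vis hp hvis hch hhead hcov
    cases n with
    | zero => rfl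
    | succ n =>
      simp only [srch, Bool.or_eq_true, List.any_eq_true]
      right
      refine ⟨v, List.mem_finRange v, ?_⟩
      rw [SimpleGraph.Walk.cons_isPath_iff] at hp
      have hvq : v ∈ q.support := q.start_mem_support
      have h1 : (ent u v != 0) = true := by
        have h0 : ent u v ≠ 0 := h
        simpa using h0
      have h2 : (!((u :: vis).contains v)) = true := by
        simp only [Bool.not_eq_true', List.contains_eq_mem, decide_eq_false_iff_not,
          List.mem_cons, not_or]
        refine ⟨fun e => hp.2 (e ▸ hvq), fun hv => hvis v hv ?_⟩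
        simp [hvq]
      have h3 : (c != some (ent u v == 1)) = true := by
        have := hhead s(u, v) (by simp)
        simpa [c0] using this
      have h4 : srch n v (some (ent u v == 1)) (u :: vis) = true := by
        apply ih n _ _ hp.1
        · intro x hx hxq
          rcases List.mem_cons.1 hx with rfl | hx
          · exact hp.2 hxq
          · exact hvis x hx (by simp [hxq])
        · rw [SimpleGraph.Walk.edges_cons] at hch
          exact hch.tail
        · intro e he
          rw [SimpleGraph.Walk.edges_cons] at hch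
          have := (List.isChain_cons.1 hch).1 e he
          intro hh
          apply this
          have h5 := Option.some.inj hh
          simpa [c0] using h5
        · intro a ha
          rcases hcov a ha with h' | h'
          · rw [SimpleGraph.Walk.support_cons] at h'
            rcases List.mem_cons.1 h' with rfl | h'
            · right; simp
            · left; exact h'
          · right; simp [h']
      rw [h1, h2, h3, h4]; rfl

def nrbF (X : Finset (Fin 7)) : Finset (Fin 7) :=
  Finset.univ.filter fun v => (∃ x ∈ X, ent v x = 1) ∧ (∃ x ∈ X, ent v x = 2)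

theorem ent_le : ∀ u v, ent u v = 0 ∨ ent u v = 1 ∨ ent u v = 2 := by decide

theorem nrb_eq (X : Finset (Fin 7)) : NRB G0 c0 X = (nrbF X : Set (Fin 7)) := by
  ext v
  simp only [NRB, nrbF, Set.mem_ofPred_eq, Finset.coe_filter, Finset.mem_univ, true_and]
  have e : ∀ x, c0 s(v, x) = (ent v x == 1) := fun x => rfl
  have a : ∀ x, G0.Adj v x ↔ ent v x ≠ 0 := fun x => Iff.rfl
  constructor
  · rintro ⟨⟨x, hx, _, h2⟩, ⟨y, hy, h3, h4⟩⟩
    rw [e] at h2 h4
    rw [a] at h3
    refine ⟨⟨x, hx, by simpa using h2⟩, ⟨y, hy, ?_⟩⟩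
    have h5 : ent v y ≠ 1 := by simpa using h4
    rcases ent_le v y with h | h | h <;> omega
  · rintro ⟨⟨x, hx, h1⟩, ⟨y, hy, h2⟩⟩
    refine ⟨⟨x, hx, ?_, ?_⟩, ⟨y, hy, ?_, ?_⟩⟩
    · rw [a]; omega
    · rw [e, h1]; rfl
    · rw [a]; omega
    · rw [e, h2]; rfl

theorem hall : ∀ X ∈ ({0, 1, 2, 3} : Finset (Fin 7)).powerset, X.card ≤ (nrbF X).card + 1 := by
  decide +kernel

theorem result : ¬ Claim := by
  intro h
  obtain ⟨u, v, p, hp, hch, hcov⟩ := h (Fin 7) G0 {0, 1, 2, 3} {4, 5, 6} c0 (by decide) (by decide)
    (by decide) (by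
      intro X hX
      rw [nrb_eq, Set.ncard_coe_finset]
      have := hall X (Finset.mem_powerset.2 hX)
      omega)
  have := srch_complete p 8 none [] hp (by simp) hch (by simp) (by
    intro a ha
    left
    apply hcov
    simpa using ha)
  rw [srch_false] at this
  exact Bool.false_ne_true this

end Pool.Agent.Results.MP_9cf868_co.Full
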